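import Pool.Agent.V11210.RC.Main

/-!
# Power saving for the short sums of almost all members of thin families of cubic characters

The members of the families are the products of an arbitrary fixed cubic character `χ₀` and of `R` cubic characters of prime
conductors `p 0, ..., p (R - 1)`, where `p i` is chosen from an arbitrary set of primes up to `Y` with at least `Y ^ (1 / h)`
elements. The second moment over the family is bounded by means of the duality principle of the large sieve: the correlation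
of two different members of a subfamily with `K` free primes is a sum of a nonprincipal character of a modulus at most
`Y ^ (2 K)`.
-/

set_option autoImplicit false

namespace Pool.Agent.Results.MP_081200_nt.ThinFamilies

open Finset

/-- The sum `S_χ(M, N)` of the values `χ(a)` over the integers `M < a ≤ M + N`. -/
noncomputable def S {q : ℕ} (χ : DirichletCharacter ℂ q) (M N : ℕ) : ℂ := ∑ a ∈ Ioc M (M + N), χ (a : ZMod q)

/-- `χ` is a nonprincipal cubic character. -/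
def Cubic {q : ℕ} (χ : DirichletCharacter ℂ q) : Prop := χ ^ 3 = 1 ∧ χ ≠ 1

/-- The character modulo `q` induced by the character `χ` modulo `n` (for `n ∣ q`; otherwise the principal character). -/
noncomputable def induced (q : ℕ) {n : ℕ} (χ : DirichletCharacter ℂ n) : DirichletCharacter ℂ q :=
  if h : n ∣ q then DirichletCharacter.changeLevel h χ else 1

/-- The product of the character `χ₀` modulo `q₀` and of the characters `χ (p i)` modulo `p i` (`i < R`), a character modulo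
`q₀ p_0 ⋯ p_(R-1)`. -/
noncomputable def twist {R q₀ : ℕ} (χ₀ : DirichletCharacter ℂ q₀) (χ : (p : ℕ) → DirichletCharacter ℂ p) (p : Fin R → ℕ) :
    DirichletCharacter ℂ (q₀ * ∏ i, p i) :=
  induced (q₀ * ∏ i, p i) χ₀ * ∏ i, induced (q₀ * ∏ i, p i) (χ (p i))

/-- The power saving of the statements `C_n`, simultaneously for all `n`: for all `n ≥ 1`, all real `Q ≥ z ^ n`, all
`0 ≤ M ≤ Q ^ ((1 + δ) / n)` and `N ≤ Q ^ (1 / n)` we have `|S_χ(M, N)| ≤ 4 Q ^ ((1 - δ) / n)`. -/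
def PowerSaving (δ z : ℝ) {q : ℕ} (χ : DirichletCharacter ℂ q) : Prop :=
  ∀ n : ℕ, 1 ≤ n → ∀ Q : ℝ, z ^ n ≤ Q → ∀ M N : ℕ, (M : ℝ) ≤ Q ^ ((1 + δ) / (n : ℝ)) → (N : ℝ) ≤ Q ^ (1 / (n : ℝ)) →
    ‖S χ M N‖ ≤ 4 * Q ^ ((1 - δ) / (n : ℝ))

lemma twist_eq {R q₀ : ℕ} (χ₀ : DirichletCharacter ℂ q₀) (χ : (p : ℕ) → DirichletCharacter ℂ p) (p : Fin R → ℕ) :
    twist χ₀ χ p = Pool.Agent.V11210.RC.twist χ₀ χ p := rfl

lemma induced_pow (q : ℕ) {n : ℕ} (χ : DirichletCharacter ℂ n) (h : χ ^ 3 = 1) : (induced q χ) ^ 3 = 1 := by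
  unfold induced
  split_ifs with hn
  · rw [← map_pow, h, map_one]
  · rw [one_pow]

lemma twist_pow {R q₀ : ℕ} (χ₀ : DirichletCharacter ℂ q₀) (χ : (p : ℕ) → DirichletCharacter ℂ p) (p : Fin R → ℕ)
    (h0 : χ₀ ^ 3 = 1) (h : ∀ i, χ (p i) ^ 3 = 1) : (twist χ₀ χ p) ^ 3 = 1 := by
  unfold twist
  rw [mul_pow, induced_pow _ _ h0, one_mul, ← prod_pow]
  exact prod_eq_one fun i _ => induced_pow _ _ (h i)

lemma saving {q : ℕ} (χ : DirichletCharacter ℂ q) (δ : ℝ) (hδ : 0 < δ) (hδ1 : δ ≤ 1 / 4) (Z : ℕ) (hZ : 1 ≤ Z)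
    (h : ∀ N : ℕ, Z ≤ N → ‖∑ a ∈ Ioc 0 N, χ (a : ZMod q)‖ ≤ (N : ℝ) ^ (1 - 2 * δ)) :
    PowerSaving δ ((Z : ℝ) ^ 2) χ := by
  intro n hn Q hQ M N hM hN
  have hnR : (0 : ℝ) < n := by exact_mod_cast hn
  have hZR : (1 : ℝ) ≤ Z := by exact_mod_cast hZ
  have hQ1 : 1 ≤ Q := le_trans (one_le_pow₀ (one_le_pow₀ hZR)) hQ
  have hQ0 : 0 < Q := by linarith
  have hNle : (N : ℝ) ≤ Q ^ ((1 + δ) / (n : ℝ)) := hN.trans (Real.rpow_le_rpow_of_exponent_le hQ1 (by
    apply div_le_div_of_nonneg_right _ hnR.le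
    linarith))
  have key : ∀ L : ℕ, (L : ℝ) ≤ 2 * Q ^ ((1 + δ) / (n : ℝ)) → ‖∑ a ∈ Ioc 0 L, χ (a : ZMod q)‖ ≤ 2 * Q ^ ((1 - δ) / (n : ℝ)) := by
    intro L hL
    rcases Nat.lt_or_ge L Z with h1 | h1
    · have h2 : ∀ a ∈ Ioc 0 L, ‖χ ((a : ℕ) : ZMod q)‖ ≤ (1 : ℝ) := fun a _ => DirichletCharacter.norm_le_one _ _
      have h3 : ‖∑ a ∈ Ioc 0 L, χ (a : ZMod q)‖ ≤ Z := by
        refine (norm_sum_le _ _).trans ((sum_le_sum h2).trans ?_)
        rw [sum_const, Nat.card_Ioc, nsmul_eq_mul, mul_one]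
        have : L - 0 ≤ Z := by omega
        exact_mod_cast this
      have h4 : (Z : ℝ) = (((Z : ℝ) ^ 2) ^ n) ^ (1 / 2 / (n : ℝ)) := by
        rw [← Real.rpow_natCast ((Z : ℝ) ^ 2) n, ← Real.rpow_natCast (Z : ℝ) 2, ← Real.rpow_mul (by positivity),
          ← Real.rpow_mul (by positivity)]
        have : ((2 : ℕ) : ℝ) * ((n : ℝ) * (1 / 2 / (n : ℝ))) = 1 := by
          push_cast
          field_simp
        rw [this, Real.rpow_one]
      have h5 : (Z : ℝ) ≤ Q ^ ((1 - δ) / (n : ℝ)) := by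
        rw [h4]
        refine (Real.rpow_le_rpow (by positivity) hQ (by positivity)).trans (Real.rpow_le_rpow_of_exponent_le hQ1 ?_)
        apply div_le_div_of_nonneg_right _ hnR.le
        linarith
      have h6 : 0 ≤ Q ^ ((1 - δ) / (n : ℝ)) := by positivity
      linarith
    · have h2 : (L : ℝ) ^ (1 - 2 * δ) ≤ (2 * Q ^ ((1 + δ) / (n : ℝ))) ^ (1 - 2 * δ) :=
        Real.rpow_le_rpow (by positivity) hL (by linarith)
      refine ((h L h1).trans h2).trans ?_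
      rw [Real.mul_rpow (by norm_num) (by positivity), ← Real.rpow_mul hQ0.le]
      apply mul_le_mul
      · calc (2 : ℝ) ^ (1 - 2 * δ) ≤ 2 ^ (1 : ℝ) := Real.rpow_le_rpow_of_exponent_le (by norm_num) (by linarith)
          _ = 2 := Real.rpow_one 2
      · apply Real.rpow_le_rpow_of_exponent_le hQ1
        rw [div_mul_eq_mul_div]
        apply div_le_div_of_nonneg_right _ hnR.le
        nlinarith
      · positivity
      · norm_num
  have h7 : S χ M N = ∑ a ∈ Ioc 0 (M + N), χ (a : ZMod q) - ∑ a ∈ Ioc 0 M, χ (a : ZMod q) := by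
    unfold S
    rw [← sum_Ioc_consecutive (fun a : ℕ => χ (a : ZMod q)) (Nat.zero_le M) (Nat.le_add_right M N), add_sub_cancel_left]
  rw [h7]
  have hX : 0 ≤ Q ^ ((1 + δ) / (n : ℝ)) := by positivity
  have h8 := key (M + N) (by
    push_cast
    linarith)
  have h9 := key M (by linarith)
  refine (norm_sub_le _ _).trans ((add_le_add h8 h9).trans (le_of_eq ?_))
  ring

open Classical in
/-- Let integers `h ≥ 1` and `C ≥ 0` be given. There is `δ > 0` with the following property. For every `B` there are `A` and `Y₀`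
such that for all `Y ≥ Y₀` and `R ≥ 1` the following holds.

Let `P 0, ..., P (R - 1)` be pairwise disjoint sets of at least `Y ^ (1 / h)` primes `p ≤ Y`, let for every such prime a nonprincipal
cubic character `χ p` modulo `p` be given (so that `p ≡ 1` modulo `3`), and let `χ₀` be an arbitrary character modulo `q₀` with
`χ₀ ^ 3 = 1`, where `q₀ ≤ Y ^ (C R)` is not divisible by the primes in the sets `P i`. Then the products `χ` of `χ₀` and of the
characters `χ (p i)`, `p i ∈ P i` (`i < R`), are nonprincipal cubic characters, and all but at most a proportion `1 / Y ^ B` of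
them satisfy `|S_χ(M, N)| ≤ 4 Q ^ ((1 - δ) / n)` for all `n ≥ 1`, all real `Q ≥ Y ^ (A n)`, all `M ≤ Q ^ ((1 + δ) / n)` and all
`N ≤ Q ^ (1 / n)`. -/
theorem result (h C : ℕ) (hh : 1 ≤ h) : ∃ δ : ℝ, 0 < δ ∧ ∀ B : ℕ, ∃ A Y₀ : ℕ, ∀ Y R : ℕ, Y₀ ≤ Y → 1 ≤ R →
    ∀ P : Fin R → Finset ℕ, (∀ i, ∀ p ∈ P i, p.Prime ∧ p ≤ Y) → (∀ i j, i ≠ j → Disjoint (P i) (P j)) →
    (∀ i, Y ≤ (P i).card ^ h) →
    ∀ χ : (p : ℕ) → DirichletCharacter ℂ p, (∀ i, ∀ p ∈ P i, Cubic (χ p)) →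
    ∀ q₀ : ℕ, 1 ≤ q₀ → q₀ ≤ Y ^ (C * R) → (∀ i, ∀ p ∈ P i, ¬ p ∣ q₀) →
    ∀ χ₀ : DirichletCharacter ℂ q₀, χ₀ ^ 3 = 1 →
      (∀ p ∈ Fintype.piFinset P, Cubic (twist χ₀ χ p)) ∧
      (((Fintype.piFinset P).filter (fun p => ¬ PowerSaving δ ((Y : ℝ) ^ A) (twist χ₀ χ p))).card : ℝ) ≤
        1 / (Y : ℝ) ^ B * ((Fintype.piFinset P).card : ℝ) := by
  obtain ⟨k, hk⟩ : ∃ k : ℕ, k = 32 * h * (C + 1) := ⟨_, rfl⟩
  have hk1 : 32 ≤ k := by
    rw [hk]
    have : 1 ≤ h * (C + 1) := Nat.mul_pos hh (Nat.succ_pos C)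
    nlinarith
  have hkR : (32 : ℝ) ≤ k := by exact_mod_cast hk1
  refine ⟨1 / (4 * (k : ℝ)), by positivity, fun B => ⟨2 * ((B + 1) * k), (1 + k * 2 ^ k) ^ 2 + 4, ?_⟩⟩
  intro Y R hY hR P hP hdis hcard χ hχ q₀ hq1 hq hqP χ₀ hχ₀
  have hY1 : 1 ≤ Y := by omega
  constructor
  · intro p hp
    refine ⟨twist_pow χ₀ χ p hχ₀ fun i => (hχ i _ (Fintype.mem_piFinset.1 hp i)).1, ?_⟩
    rw [twist_eq]
    exact Pool.Agent.V11210.RC.twist_ne_one P hR (fun i p hp => (hP i p hp).1) hdis hqP χ₀ χ (fun i p hp => (hχ i p hp).2) p hp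
  · have h1 := Pool.Agent.V11210.RC.main (B := B) (C := C) P hh hR hP (by rw [← hk]; exact hY) hdis hcard hq1 hq hqP χ₀ χ
      (fun i p hp => (hχ i p hp).2)
    rw [← hk] at h1
    refine le_trans ?_ h1
    have h2 : (Fintype.piFinset P).filter (fun p => ¬ PowerSaving (1 / (4 * (k : ℝ))) ((Y : ℝ) ^ (2 * ((B + 1) * k))) (twist χ₀ χ p)) ⊆
        (Fintype.piFinset P).filter (fun s => ¬ ∀ N : ℕ, Y ^ ((B + 1) * k) ≤ N →
          ‖Pool.Agent.V11210.RC.F χ₀ χ s N‖ ≤ (N : ℝ) ^ (1 - 1 / (2 * (k : ℕ) : ℝ))) := by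
      intro p hp
      rw [mem_filter] at hp ⊢
      refine ⟨hp.1, fun hc => hp.2 ?_⟩
      have h3 := saving (twist χ₀ χ p) (1 / (4 * (k : ℝ))) (by positivity) (by
        apply one_div_le_one_div_of_le (by norm_num)
        linarith) (Y ^ ((B + 1) * k)) (Nat.one_le_pow _ _ hY1) (by
        intro N hN
        have h4 := hc N hN
        rw [show (1 : ℝ) - 2 * (1 / (4 * (k : ℝ))) = 1 - 1 / (2 * (k : ℕ) : ℝ) by
          field_simp
          ring]
        exact h4)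
      have h5 : (((Y ^ ((B + 1) * k) : ℕ) : ℝ)) ^ 2 = (Y : ℝ) ^ (2 * ((B + 1) * k)) := by
        push_cast
        rw [← pow_mul]
        congr 1
        ring
      rw [h5] at h3
      exact h3
    exact_mod_cast card_le_card h2

end Pool.Agent.Results.MP_081200_nt.ThinFamilies
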